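import Mathlib
import Pool.Agent.X311.Vh4

/-!
# The variational Hodge conjecture for families of K3 surfaces times any family

Let `B` be a smooth connected variety, `X → B` a family of K3 surfaces (or of cubic fourfolds, or of
any smooth projective varieties whose cohomology is spanned by classes which are algebraic on all
fibres and by a variation of Hodge structure of K3 type) and `Y → B` ANY family of smooth projective
varieties. The cohomology of the fibres of `X` and `Y` is trivialized over the universal covering `U` of
`B`: it is `ℚ ^ s ⊕ ℚ ^ n` and `ℚ ^ v`, where `ℚ ^ s` has a basis of classes which are algebraic on all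
fibres and `ℚ ^ n`, with the intersection form `Q` and the periods `ω u`, is the transcendental lattice of
the fibre at a very general point `u₀`. For K3 surfaces `n = 22 - ρ` where `ρ` is the Picard number of the
fibre at `u₀`. Flat classes on the fibres of the fibre product `X ^ m × Y` are the elements `t J d` of
`(ℚ ^ s ⊕ ℚ ^ n) ⊗ ... ⊗ (ℚ ^ s ⊕ ℚ ^ n) ⊗ ℚ ^ v`; the global sections over `B` are those which are
invariant under the monodromy.

Suppose that `X` has more than `n / 2 - 1` moduli relative to `Y` at `u₀`: this is the rank of the
period map of `X` at `u₀` in the directions in which the Hodge structure of `Y` is constant. For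
instance `Y` is one fixed variety and `X` has more than `n / 2 - 1` moduli, or `B = B' × S` with such a
family `X` over `B'` and any family `Y` over `S`. (The bound is sharp: it excludes the families of K3
surfaces with multiplication by a CM field, with up to `n / 2 - 1` moduli.)

**Theorem.** (1) Each flat class on the fibres of `X ^ m × Y` which is a Hodge class on all fibres is a
combination of products of algebraic classes in `ℚ ^ s` on some factors `X`, of the transcendental
parts of the diagonals on pairs of other factors `X`, of at most one determinant of `ℚ ^ n` on `n` other
factors, and of a flat class which is a Hodge class on all fibres of `Y`.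

(2) Suppose that `m < n`, or that some element of the monodromy acts on `ℚ ^ n` with determinant `-1` and
on the cohomology of `Y` without the eigenvalue `-1`. (This is so, for ALL `m`, if `Y` is one fixed
variety and the family `X` has a monodromy element of determinant `-1`, for example the reflection
given by a fibre with one node, or if `Y` has good reduction or unipotent monodromy there.) Then the
variational Hodge conjecture for `X ^ m × Y → B` at the point `u₁` is equivalent to the variational
Hodge conjecture for `Y → B` at the point `u₁`. In particular it holds for `X ^ m × Y` for each fixed
variety `Y`.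

Of algebraic cycles only two properties are used, which are the fields of `IsCycleSystem`.

The proof. Let `t` be a flat class which is a Hodge class on all fibres, and let `L` be the complex Lie
algebra of the skew matrices which kill `t` when they act on the factors `X` (and trivially on `Y`). It
is stable under all automorphisms of the complex numbers and under the commutator with the Hodge
operator at `u₀`. Along a curve on which the Hodge structure of `Y` is constant the differences of the
Hodge operators of `X` are in `L`; the component of this difference of type `(-1, 1)` is the matrix of
`x ∧ ω̄` with `x = ā v - b v̄` where `a ω + b ω̄ + v` is the period. So these vectors `x` are in a fixed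
subspace, and so is their derivative, which is the part of type `(1, 1)` of the derivative of the
period. As there are more than `n / 2 - 1` independent derivatives, `L` contains all the skew matrices by
the main lemma (`all_mem`); the first fundamental theorem gives (1). For (2) the components of `t` on
`Y` are recovered by algebraic operations: since `(NᵀN) Q⁻¹ (NᵀN) = Q` for a real matrix `N`, no nonzero
combination of tensor products of `Q⁻¹` is orthogonal to all tensor products of `Q` (`Nd.nondeg`).
-/

namespace Pool.Agent.Results.MP_e9c0f3_ag.FamiliesOfK3Times

open Matrix Pool.Agent.TH131.GHC Pool.Agent.TH504.VY Pool.Agent.X311 Pool.Agent.X311.K3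

/-- **The variational Hodge conjecture for families of K3 surfaces times any family.** Let `F` be a
family of Hodge structures of K3 type on `ℚ ^ n` over `U`, where the period at `u₀` is not in a proper
rational subspace, and `V` any family of varieties `Y` over `U`, such that `F` has more than `n / 2 - 1`
moduli at `u₀` relative to `V`. Then (1) flat classes on `X ^ m × Y` which are everywhere Hodge classes
are combinations of products of algebraic classes, diagonals, at most one determinant, and flat
classes on `Y` which are everywhere Hodge classes; (2) for `m < n` the variational Hodge conjecture for
`X ^ m × Y` is equivalent to the variational Hodge conjecture for `Y`. -/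
theorem result {U : Type} {n v : ℕ} (F : Family U n) (V : U → Coh v) {u₀ : U}
    (hT : LinearIndependent ℚ (F.ω u₀)) (hD : n < 2 * F.moduli V u₀ + 2) (s m : ℕ) :
    (∀ t, (∀ u, F.IsHodgeAt V t u) → t ∈ F.standardTimes s m {y | ∀ u, IsHodgeOn (V u) y}) ∧
    (0 < s → ∀ (M : Set (Matrix (Fin n) (Fin n) ℚ × Matrix (Fin v) (Fin v) ℚ)),
      (∀ g ∈ M, g.1.transpose * F.Q * g.1 = F.Q) →
      (m < n ∨ ∃ g ∈ M, g.1.det = -1 ∧ ∀ y, g.2 *ᵥ y = -y → y = 0) →
      ∀ (Alg : U → Submodule ℚ ((Fin m → Fin s ⊕ Fin n) → Fin v → ℚ))
        (AlgY : U → Submodule ℚ (Fin v → ℚ)), F.IsCycleSystem Alg AlgY →
        ∀ u₁ : U, F.VHC V M Alg u₁ ↔ VHCY V M AlgY u₁) :=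
  ⟨fun _ ht => mem_standard_flat hT hD ht, fun hs _ hM hdet _ _ hA _ =>
    ⟨vhcY_of hs hA, fun hY t hi hH h1 => alg_of hT hD hdet hM hA hi hH h1 LinearMap.id
      (fun _ => rfl) fun y _ => hY y⟩⟩

end Pool.Agent.Results.MP_e9c0f3_ag.FamiliesOfK3Times
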