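import Pool.Agent.X227.UP.VHC

/-!
# The variational Hodge conjecture for all fibre powers: only finitely many families matter

Let `S` be a smooth connected complex variety, `k` an algebraic closure of its function field, and `𝒱`
a class of smooth projective varieties over `k` closed under products; they are the geometric generic
members of smooth projective families over finite coverings of open parts of `S`. `W` is the
cohomology of a very general member with coefficients in `ℂ` (any Weil cohomology theory on `𝒱` with
algebraically closed coefficients is allowed) with its rational Hodge structures (`HodgeData`). A
special member `D` (`Special`), given by a point `0` to which the families extend, records the sets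
`special X j` of the rational classes of degree `2 j` whose parallel transport to the member over `0`
is the class of an algebraic cycle. They contain the algebraic classes, and are preserved by products,
pull-backs and push-forwards, since cycles and the graphs of morphisms specialize.

By the theorem of the fixed part a flat class which is algebraic on one member is a Hodge class on
all members; conversely a Hodge class on a very general member is flat over a finite covering
of `S`. So `VHC D X` is the variational Hodge conjecture for the family `X` and the special member `D`,
over all finite coverings of `S`.

Let `X i` be any collection of families (`SpFamily`), which may be infinite, such that for the very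
general members: `X i` is odd-dimensional, homological and numerical equivalence coincide on `X i`, the
transcendental cohomology `T i` (the orthogonal complement of all algebraic classes) is in the
middle degree, the Mumford-Tate group acts irreducibly on the Lie algebra `sp(T i)` of the operators on
`T i` which are skew for the intersection form, and these adjoint representations are pairwise not
isomorphic. (Examples: families of curves, of hypersurfaces and of complete intersections of odd
dimension with big monodromy.) Let `Z` be ANY family.

The theorem: there is ONE finite set `B` of indices which works for ALL special members and for all
fibre powers of `Z` at once: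

(1) For all special members `D`, all `n` and all lists `L` the variational Hodge conjecture for the
fibre product of `Z^(n+1)` and the `X i`, `i ∈ L`, is equivalent to the conjecture for the products with
the small sublists of `L`, which consist of elements of `B`: for some degree `m` of the right parity the
product of the numbers (exponent of `X i`) + 1 and the sum of the `dim T i`, over the `i` which occur,
are at most the Betti number `b_m(Z^(n+1))`.

(2) For all special members `D` and all lists `L` the conjecture for all fibre powers of
`Z × ∏_{i ∈ L} X i` is equivalent to the conjecture for all fibre powers of `Z × ∏_{i ∈ L, i ∈ B} X i`:
all factors which are not in `B` can be omitted.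

(3) `∑_{i ∈ B} dim sp(T i) ≤ b ^ 2` where `b` is the dimension of any sum of cohomology groups `H^m(Z)`,
`m ∈ S`, which generates the cohomology algebra of `Z` (`GenBound`); in particular `b = dim H(Z)` is
possible for all `Z`, and `b = 2 g` if `Z` is a family of abelian varieties of dimension `g`. No `i ∈ B` is
separated from `Z` by Hodge types (`TypeSep`).

The idea of the proof: if the factor `X i` matters for some power of `Z` then `sp(T i)` acts by
derivations of `H(Z^(n+1))` which can be chosen to commute with all endomorphisms of `Z^(n+1)`, in
particular with the permutations of the factors; so they are determined by their restriction to the
generators of the cohomology of one factor `Z`, and these restrictions are linearly independent for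
the different `i`.
-/

open CategoryTheory AlgebraicGeometry

universe u

namespace Pool.Agent.Results.MP_e9c0f3_ag.FinitelyManyFamilies

open Pool.Agent.H914 Pool.Agent.H914.VarClass Pool.Agent.H914.VarClass.Obj Pool.Agent.Y132.AH
  Pool.Agent.X227.NP Pool.Agent.X227.UP

variable {k : Type u} [Field k] {𝒱 : VarClass k} {ops : CycleOps 𝒱}

theorem result (W : WeilCohomology.{u, 0} ops) [IsAlgClosed W.K] (Ψ : HodgeData W)
    {ι : Type} [DecidableEq ι] (X : ι → 𝒱.Obj) (hX : SpFamily Ψ X) (Z : 𝒱.Obj) :
    ∃ B : Finset ι, GenBound W X Z B ∧ (∀ i ∈ B, ¬TypeSep Ψ (X i) Z) ∧
      ∀ D : Special Ψ, (∀ (n : ℕ) (L : List ι), VHC D (prodList X (powN Z n) L) ↔
        ∀ L' : List ι, L'.Sublist L → SmallDim W X (powN Z n) B L' →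
          VHC D (prodList X (powN Z n) L')) ∧
        ∀ L : List ι, (∀ n, VHC D (powN (prodList X Z L) n)) ↔
          ∀ n, VHC D (powN (prodList X Z (L.filter (· ∈ B))) n) :=
  vhc_gen Ψ Z hX

end Pool.Agent.Results.MP_e9c0f3_ag.FinitelyManyFamilies
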