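import Pool.Agent.X312.FK.Eq

/-!
# A gap law for the variational Hodge conjecture for the families `𝒴 × X ^ n`

Let `π : 𝒴 → S` be **any** smooth projective family over a smooth connected quasi-projective
complex variety, and let `X` be a smooth projective complex variety such that homological and
numerical equivalence agree on its powers (known for surfaces, abelian varieties and products of
them). For `Z` a power of `X` let `T(Z)` be the space of the global sections over `S` of the local
systems `R^(2 p) (π × Z)_* ℚ(p)`, `p ≥ 0`, of the family `𝒴 × Z → S`, and for a point `s` of `S`
let `B_s(Z)` be the space of the sections whose value at `s` is algebraic. The variational Hodge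
conjecture says that `B_s(Z)` does not depend on `s`. Let `ρ(Z)` be the rank of the cycles of all
codimensions on `Z` modulo numerical equivalence, and `b` the sum of the Betti numbers of `X`. For
all `m ≥ 1`: **the variational Hodge conjecture is true for the family** `𝒴 × X ^ m → S`, **or for
all** `n ≥ 1`

`dim (∑_s B_s(X ^ n)) - dim (⋂_s B_s(X ^ n)) ≥ (1 - 4 (m + 3) b ^ (m + 5) log (n + 1) / n) ρ(X ^
n)`.

So one section for the family `𝒴 × X ^ m → S` which is algebraic at one point and not at another
one forces almost `ρ(X ^ n)` sections for the family `𝒴 × X ^ n → S`, sums of sections which are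
algebraic at some point, and independent modulo the sections which are algebraic at all points.
(The same is true for the sections algebraic at one of two given points.) The correspondences
between smooth projective varieties `Z`, `Z'` act on the sections and preserve the spaces `B_s`.

The proof. We have to compare the two families of subspaces `A = ⋂_s B_s` and `T = ∑_s B_s`. For
`Z` a power of `X` the algebraic correspondences act on the spaces `T(Z)` and `A(Z)`. If `A(P) ≠
T(P)` for `P = X ^ m`, one takes an idempotent algebraic correspondence `g` on `P` of minimal rank
with `g T(P) ⊄ A(P)` and an element `z` of `g T(P)` which is not in `A(P)`. The correspondences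
`x` with `x z ∈ A(P)` have a nilpotent compression `g x g`, so the trace of `g x` vanishes, and so
`dim T(Z) / A(Z)` is at least the rank of the trace form `(u, v) ↦ tr (g v u)` on the
correspondences between `P` and `Z`; for `Z = X ^ n` this rank is compared with `ρ(X ^ n)` by the
log-convexity of the sequence of the ranks of the intersection forms and by the symmetric group.
-/

set_option autoImplicit false

open CategoryTheory AlgebraicGeometry

universe u v w

namespace Pool.Agent.Results.MP_e9c0f3_ag.GapLaw

open Pool.Agent.H914 VarClass Obj WeilCohomology
open Pool.Agent.X312.FK (HomData gapBound)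
open Pool.Agent.Y133.Half (pw cycRank)

variable {k : Type u} [Field k] {𝒱 : VarClass k} {ops : CycleOps 𝒱}
  {W : WeilCohomology.{u, v} ops}

/-- The sum of the Betti numbers of `X`. -/
noncomputable def totalBetti (W : WeilCohomology.{u, v} ops) (X : 𝒱.Obj) : ℕ :=
  Module.finrank W.K (W.H X)

/-- The dimension of the sum of the subspaces `B i Z`. -/
noncomputable def dimSum {T : HomData W} {ι : Type v}
    (B : ι → ∀ Z : 𝒱.Obj, Submodule W.K (T.M Z)) (Z : 𝒱.Obj) : ℕ :=
  Module.finrank W.K (⨆ i, B i Z : Submodule W.K (T.M Z))

/-- The dimension of the intersection of the subspaces `B i Z`. -/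
noncomputable def dimInter {T : HomData W} {ι : Type v}
    (B : ι → ∀ Z : 𝒱.Obj, Submodule W.K (T.M Z)) (Z : 𝒱.Obj) : ℕ :=
  Module.finrank W.K (⨅ i, B i Z : Submodule W.K (T.M Z))

/-- **The gap law for the variational Hodge conjecture.** Here `T.M Z` is in the intended use the space
of the global sections of the local systems of the cohomology groups of the fibres of `𝒴 × Z → S`, on
which the correspondences between smooth projective varieties `Z` act, `ι` is the set of the points of
`S`, `B s Z` is the space of the sections which are algebraic at `s`, and `pw X m` is the product of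
`m + 1` copies of `X`. -/
theorem result (T : HomData W) (hT : T.IsFunctor) {ι : Type v}
    (B : ι → ∀ Z : 𝒱.Obj, Submodule W.K (T.M Z)) (hB : ∀ i, T.IsStable (B i)) (X : 𝒱.Obj)
    (hD : ∀ n : ℕ, HomEqNum W (pw X n)) (m : ℕ) :
    (∀ i j, B i (pw X m) = B j (pw X m)) ∨
    ∀ n : ℕ, dimInter B (pw X n) + gapBound (totalBetti W X) (cycRank ops (pw X n)) m n ≤
      dimSum B (pw X n) :=
  Pool.Agent.X312.FK.ind_law hT hB X hD m

end Pool.Agent.Results.MP_e9c0f3_ag.GapLaw
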