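import Pool.Agent.X227.NP.HV

/-!
# The variational Hodge conjecture for fibre products of any family with powers of families of
# symplectic type

Let `S` be a smooth connected complex variety with a point `0`, `k` an algebraic closure of its
function field, and `𝒱` the class of the smooth projective varieties over `k` which extend to a smooth
projective family over a finite covering of a neighbourhood of `0` in `S`; they are the geometric
generic members of the families. `W` is the cohomology of a very general member with coefficients in
`ℂ` (any Weil cohomology theory on `𝒱` with algebraically closed coefficients is allowed) with its
rational Hodge structures (`HodgeData`), and `Special` records the sets `special X j` of the rational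
classes of degree `2 j` whose parallel transport to the member over `0` (along a fixed path) is the
class of an algebraic cycle. They contain the algebraic classes, and are preserved by products,
pull-backs and push-forwards, since cycles and the graphs of morphisms specialize.

By the theorem of the fixed part a flat class which is algebraic on one member is a Hodge class on
all members; conversely a Hodge class on a very general member is flat over a finite covering
of `S`. So `VHC D X` is the variational Hodge conjecture for the family `X`, over all finite
coverings of `S`: a flat class which is algebraic on the member over `0` is algebraic on the
geometric generic member (equivalently, on all members).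

Let `X i` be any collection of families (`SpFamily`), which may be infinite, such that for the very
general members: `X i` is odd-dimensional, homological and numerical equivalence coincide on `X i`, the
transcendental cohomology `T i` (the orthogonal complement of all algebraic classes) is in the
middle degree, the Mumford-Tate group acts irreducibly on the Lie algebra of the operators on `T i`
which are skew for the intersection form, and these adjoint representations are pairwise not
isomorphic. For instance this is so if the monodromy groups are Zariski dense in the symplectic
groups (families of curves, of hypersurfaces and of complete intersections of odd dimension,
by Beauville, or Lefschetz pencils of hyperplane sections) and pairwise not isomorphic as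
representations on the Lie algebras. Let `Z` be ANY family.

(1) There is a finite set `B` of indices with `∑ dim T i ≤ dim H(Z)`, none of them separated from `Z`
by Hodge types, such that the variational Hodge conjecture holds for the fibre product of `Z` with
any powers of the `X i` if and only if it holds for those subproducts with `i ∈ B` which are small
(`SmallHodge`): for some degree `m` of the right parity the product of the numbers
(exponent of `X i`) + 1 and the sum of the `dim T i`, over the `i` which occur, are at most the Betti
number `b_m(Z)`, and the sum of the numbers `min |p - q|`, over the Hodge types `(p, q)` of the `T i`,
is at most `m` and `2 dim Z - m`. So finitely many fibre products decide for infinitely many.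

(2) If all `X i` are separated from `Z` by Hodge types (`TypeSep`: the cohomology of `Z` is generated
by pieces of width at most `N`, and `T i` has a Hodge type `(p, q)` with `p - q > N`; `N = 1` if `Z` is
a family of abelian varieties or products of curves, `N = dim Z` is always possible), then the
conjecture for the fibre powers of the product of `Z` with any powers of the `X i` is equivalent to the
conjecture for the fibre powers of `Z`, of the same order. So it holds for `P ×_S Z` if `Z` has
relative dimension at most three, and for all `(P ×_S Z) ^ n` if it holds for all `Z ^ n`.

(3) The variational Hodge conjecture holds for all fibre products of powers of the `X i`.

No independence of the monodromy groups of the `X i` and of `Z` is supposed in (1), (2).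

The idea of the proof: let `F` be a flat class which is algebraic on the special member. Its
components in the tensor factors `T i` are functions with values in `H(Z)`. The contraction of
two factors by the intersection form is given by algebraic correspondences, so it preserves the
classes which are algebraic on the special member. By induction the contractions of a minimal
counterexample are algebraic and can be subtracted, so it can be supposed traceless. The traceless
parts of the tensor powers of the `T i` occur in a twist of `H(Z)`, which gives the bounds.
-/

open CategoryTheory AlgebraicGeometry

universe u

namespace Pool.Agent.Results.MP_e9c0f3_ag.LargeMonodromyTimes

open Pool.Agent.H914 Pool.Agent.H914.VarClass Pool.Agent.H914.VarClass.Obj Pool.Agent.Y132.AH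
  Pool.Agent.X227.NP

variable {k : Type u} [Field k] {𝒱 : VarClass k} {ops : CycleOps 𝒱}

theorem result (W : WeilCohomology.{u, 0} ops) [IsAlgClosed W.K] (Ψ : HodgeData W)
    (D : Special Ψ) {ι : Type} [DecidableEq ι] (X : ι → 𝒱.Obj) (hX : SpFamily Ψ X) (Z : 𝒱.Obj) :
    (∃ B : Finset ι, ∑ i ∈ B, trDim W (X i) ≤ totDim W Z ∧ (∀ i ∈ B, ¬TypeSep Ψ (X i) Z) ∧
      ∀ L : List ι, VHC D (prodList X Z L) ↔
        ∀ L' : List ι, L'.Sublist L → SmallHodge Ψ X Z B L' → VHC D (prodList X Z L')) ∧
    ((∀ i, TypeSep Ψ (X i) Z) → ∀ (L : List ι) (n : ℕ),
      (VHC D (powN (prodList X Z L) n) ↔ VHC D (powN Z n))) ∧
    (Z.dim = 0 → ∀ (L : List ι) (n : ℕ), VHC D (powN (prodList X Z L) n)) :=
  ⟨vhc_general D Z hX, fun h L n => vhc_sep D Z hX h L n,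
    fun hZ L n => vhc_products D hZ hX L n⟩

end Pool.Agent.Results.MP_e9c0f3_ag.LargeMonodromyTimes
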